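import Mathlib
import Pool.Agent.H89.CohDefs
import Pool.Agent.H89.CohMain

set_option autoImplicit false

namespace Pool.Agent.Results.MP_2cb16d_lc.AutCohesivePower

open Pool.Agent.H89.CohesivePower

/-- Let `F` be a number field with a computable presentation `ν` (domain `ℕ`) and let `C` be a
cohesive set. There is a group isomorphism from the automorphism group of `F` onto the automorphism
group of the cohesive power of `F` over `C`, and it sends an automorphism `τ` of `F` to the
automorphism induced by `τ`, that is the map `[φ] ↦ [τ ∘ φ]`. In particular every automorphism of
the cohesive power is induced by exactly one automorphism of `F`. -/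
theorem result (F : Type*) [Field F] [NumberField F] (ν : CompPres F) (C : Set ℕ)
    (hC : Cohesive C) : ∃ Φ : RingAut F ≃* RingAut (CohPower ν C),
      ∀ (τ : RingAut F) (Ψ : RingAut (CohPower ν C)), Φ τ = Ψ ↔ Induces ν C τ Ψ :=
  main_theorem F ν C hC

end Pool.Agent.Results.MP_2cb16d_lc.AutCohesivePower
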